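import Pool.Agent.Lib.MP_4fbe7c_an.ND.Iface
import Pool.Agent.Lib.MP_4fbe7c_an.ND.Base
import Pool.Agent.Lib.MP_4fbe7c_an.ND.H65.Dis

/-!
Project ND (MP_4fbe7c_an), module CLO (helper47): small dissipation means close to the steady
state.
-/

set_option autoImplicit false

open Set MeasureTheory

namespace Pool.Agent.Lib.MP_4fbe7c_an.ND.H47

open Pool.Agent.Lib.MP_4fbe7c_an.UL Pool.Agent.Lib.MP_4fbe7c_an.ND

section tools

variable {p : ℕ} {Ω : Set (Eu p)} {q : Eu p → ℝ}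

theorem clo_lip_abs {K : ℝ} {f : Eu p → ℝ} (h : LipOn Ω K f) : LipOn Ω |K| f :=
  fun x hx y hy => (h x hx y hy).trans (mul_le_mul_of_nonneg_right (le_abs_self K) (norm_nonneg _))

theorem clo_lip_sum {K : ℝ} {f : ℕ → Eu p → ℝ} {n : ℕ} (h : ∀ i, i ≤ n → LipOn Ω K (f i)) :
    LipOn Ω ((n + 1) * K) (fun x => Pk (fun i => f i x) n) := by
  intro x hx y hy
  unfold Pk
  rw [← Finset.sum_sub_distrib]
  refine (Finset.abs_sum_le_sum_abs _ _).trans ?_
  refine (Finset.sum_le_sum fun i hi => h i (Nat.lt_succ_iff.mp (Finset.mem_range.mp hi))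
    x hx y hy).trans ?_
  rw [Finset.sum_const, Finset.card_range, nsmul_eq_mul]
  push_cast
  exact le_of_eq (by ring)

theorem clo_zeta_pos (hOsc : OscStatement) {m : Eu p → ℝ} {d b Kθ : ℝ} {θ : Eu p → ℝ}
    {θ' : Eu p → Eu p} {θ'' : Eu p → Eu p →L[ℝ] Eu p} (hΩ : Dom Ω q)
    (cm : ContinuousOn m (closure Ω)) (hnc : ∃ x ∈ closure Ω, ∃ y ∈ closure Ω, m x ≠ m y)
    (hθ : Stdy Ω q m d θ θ' θ'') (hK : LipOn Ω Kθ θ) (hb : ∀ x ∈ closure Ω, θ x ≤ b) :
    0 < ∫ x in Ω, ‖(θ x)⁻¹ • θ' x‖ ^ 2 := by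
  by_contra hcon
  rw [not_lt] at hcon
  have cθ : ContinuousOn θ (closure Ω) := hθ.c2.toC1.c0
  have cθ' : ContinuousOn θ' (closure Ω) := hθ.c2.toC1.c1
  have cζ : ContinuousOn (fun x => (θ x)⁻¹ • θ' x) (closure Ω) :=
    (cθ.inv₀ fun x hx => (hθ.pos x hx).ne').smul cθ'
  have h1 : ∫ x in Ω, ‖θ' x‖ ^ 2 ≤ 0 := by
    have h2 : ∫ x in Ω, ‖θ' x‖ ^ 2 ≤ ∫ x in Ω, b ^ 2 * ‖(θ x)⁻¹ • θ' x‖ ^ 2 := by
      refine setIntegral_mono_on (hΩ.integrableOn (cθ'.norm.pow 2))
        (hΩ.integrableOn (continuousOn_const.mul (cζ.norm.pow 2))) hΩ.measurableSet ?_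
      intro x hxΩ
      have hx : x ∈ closure Ω := subset_closure hxΩ
      have h0 := hθ.pos x hx
      have h3 : ‖θ' x‖ = θ x * ‖(θ x)⁻¹ • θ' x‖ := by
        rw [norm_smul, norm_inv, Real.norm_eq_abs, abs_of_pos h0]
        field_simp
      rw [h3, mul_pow]
      exact mul_le_mul_of_nonneg_right (pow_le_pow_left₀ h0.le (hb x hx) 2) (by positivity)
    rw [integral_const_mul] at h2
    nlinarith [sq_nonneg b]
  have hconst : ∀ x ∈ closure Ω, ∀ y ∈ closure Ω, θ x = θ y := by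
    intro x hx y hy
    by_contra hne
    have hpos : 0 < |θ x - θ y| := abs_pos.mpr (sub_ne_zero.mpr hne)
    obtain ⟨δ, hδ, h2⟩ := hOsc p Ω q Kθ _ hΩ hpos
    exact lt_irrefl _ (h2 θ θ' hθ.c2.toC1 hK (h1.trans_lt hδ) x hx y hy)
  have hgrad : ∀ x ∈ Ω, θ' x = 0 := by
    intro x hx
    have h2 : θ =ᶠ[nhds x] fun _ => θ x := by
      filter_upwards [hΩ.isOpen.mem_nhds hx] with y hy
      exact hconst y (subset_closure hy) x (subset_closure hx)
    have h3 : HasGradientAt θ 0 x := (hasGradientAt_const x (θ x)).congr_of_eventuallyEq h2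
    exact (hθ.c2.toC1.d1 x hx).unique h3
  have hm : EqOn m θ Ω := by
    intro x hx
    have h2 : θ' =ᶠ[nhds x] fun _ => 0 := by
      filter_upwards [hΩ.isOpen.mem_nhds hx] with y hy
      exact hgrad y hy
    have h3 : HasFDerivAt θ' (0 : Eu p →L[ℝ] Eu p) x :=
      (hasFDerivAt_const (𝕜 := ℝ) (0 : Eu p) x).congr_of_eventuallyEq h2
    have h4 : θ'' x = 0 := (hθ.c2.d2 x hx).unique h3
    have h5 := hθ.eq x (subset_closure hx)
    rw [h4, tr_zero, mul_zero, zero_add] at h5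
    rcases mul_eq_zero.mp h5 with h6 | h6
    · exact absurd h6 (hθ.pos x (subset_closure hx)).ne'
    · exact sub_eq_zero.mp h6
  have hm' : EqOn m θ (closure Ω) := hm.of_subset_closure cm cθ subset_closure (le_refl _)
  obtain ⟨x, hx, y, hy, hxy⟩ := hnc
  exact hxy ((hm' hx).trans ((hconst x hx y hy).trans (hm' hy).symm))

/-- The quotient of two `C1` functions. -/
theorem clo_C1_div {f g : Eu p → ℝ} {f' g' : Eu p → Eu p} (hf : C1 Ω f f') (hg : C1 Ω g g')
    (h0 : ∀ x ∈ closure Ω, g x ≠ 0) :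
    C1 Ω (fun x => f x * (g x)⁻¹)
      (fun x => f x • (-(g x ^ 2)⁻¹) • g' x + (g x)⁻¹ • f' x) := by
  have hinv : C1 Ω (fun x => (g x)⁻¹) (fun x => (-(g x ^ 2)⁻¹) • g' x) := by
    refine ⟨hg.c0.inv₀ h0, ?_, ?_⟩
    · exact ((hg.c0.pow 2).inv₀ fun x hx => pow_ne_zero 2 (h0 x hx)).neg.smul hg.c1
    · intro x hx
      have h1 : HasDerivAt (fun y : ℝ => y⁻¹) (-(g x ^ 2)⁻¹) (g x) :=
        hasDerivAt_inv (h0 x (subset_closure hx))
      exact HasGradientAt.comp' h1 (hg.d1 x hx)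
  exact hf.mul hinv

end tools

theorem clo (hSml : SmlStatement) (hSta : StaStatement) (hSup : SupStatement)
    (hOsc : OscStatement) (hThl : ThlStatement) : CloNStatement := by
  intro p Ω q m θ θ' θ'' n c ρ M K ε hΩ cm hnc hOrd hR hθ hε
  have hρ0 := hOrd.pos
  have hρ : ∀ i, i ≤ n → 0 < ρ i := by
    intro i
    induction i with
    | zero => intro _; exact hρ0
    | succ i ih => intro hi; exact (ih (by omega)).trans_le (hOrd.mono i (by omega))
  obtain ⟨C, hC, hsml⟩ := hSml n c (rr n ρ) hR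
  have cθ : ContinuousOn θ (closure Ω) := hθ.c2.toC1.c0
  have cθ' : ContinuousOn θ' (closure Ω) := hθ.c2.toC1.c1
  have cζ : ContinuousOn (fun x => (θ x)⁻¹ • θ' x) (closure Ω) :=
    (cθ.inv₀ fun x hx => (hθ.pos x hx).ne').smul cθ'
  have cζi : ∀ l, ContinuousOn (fun x => ((θ x)⁻¹ • θ' x) l) (closure Ω) := fun l =>
    (EuclideanSpace.proj l : Eu p →L[ℝ] ℝ).continuous.comp_continuousOn cζ
  -- bounds for θ
  obtain ⟨b, hb, hθb⟩ := hΩ.exists_bound cθ
  have hθb' : ∀ x ∈ closure Ω, θ x ≤ b := fun x hx => (le_abs_self _).trans (hθb x hx)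
  obtain ⟨a, ha, hθa⟩ : ∃ a : ℝ, 0 < a ∧ ∀ x ∈ closure Ω, a ≤ θ x := by
    obtain ⟨x0, hx0, hmin⟩ := hΩ.isCompact.exists_isMinOn hΩ.closure_nonempty cθ
    exact ⟨θ x0, hθ.pos x0 hx0, fun x hx => hmin hx⟩
  have hab : a ≤ b := by
    obtain ⟨x0, hx0⟩ := hΩ.closure_nonempty
    exact (hθa x0 hx0).trans (hθb' x0 hx0)
  obtain ⟨Kθ, hKθ, hθK⟩ := hThl p Ω q θ θ' θ'' hΩ hθ.c2 hθ.neu
  have hI0 := clo_zeta_pos hOsc hΩ cm hnc hθ hθK hθb'
  set I0 := ∫ x in Ω, ‖(θ x)⁻¹ • θ' x‖ ^ 2 with hI0d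
  -- the small numbers
  set κ : ℝ := min (a / 2) (ε / 4) with hκ
  have hκ0 : 0 < κ := lt_min (by positivity) (by positivity)
  have hκ1 : κ ≤ a / 2 := min_le_left _ _
  have hκ2 : κ ≤ ε / 4 := min_le_right _ _
  set η : ℝ := ε / (8 * b) with hη
  have hη0 : 0 < η := by positivity
  have hη1 : 4 * b * η = ε / 2 := by
    rw [hη]
    field_simp
    norm_num
  set KU : ℝ := (n + 1) * |K| with hKU
  have hKU0 : 0 ≤ KU := by positivity
  set B : ℝ := (n + 1) * |M| + b with hB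
  have hB0 : 0 < B := by positivity
  obtain ⟨δ₁, hδ₁, hsup⟩ := hSup p Ω q (2 * B * (KU + Kθ)) (κ ^ 2) hΩ (by positivity)
  obtain ⟨δ₂, hδ₂, hosc⟩ := hOsc p Ω q (2 / a * (|K| + KU)) η hΩ hη0
  refine ⟨min (δ₁ / 2) (min (ρ 0 * a / 16 * (δ₂ / 2)) (ρ 0 * a / 16 * (η ^ 2 * I0 / (2 * C)))),
    lt_min (by positivity) (lt_min (by positivity) (by positivity)), ?_⟩
  intro f f' hf hG
  have hG1 := hG.trans_le (min_le_left _ _)
  have hG2 := hG.trans_le ((min_le_right _ _).trans (min_le_left _ _))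
  have hG3 := hG.trans_le ((min_le_right _ _).trans (min_le_right _ _))
  have hrg : ∀ {k i : ℕ}, k ≤ n → i ∈ Finset.range (k + 1) → i ≤ n := by
    intro k i hk hi
    have := Finset.mem_range.mp hi
    omega
  -- continuity
  have cf : ∀ i, i ≤ n → ContinuousOn (f i) (closure Ω) := fun i hi => (hf i hi).1.c0
  have cf' : ∀ i, i ≤ n → ContinuousOn (f' i) (closure Ω) := fun i hi => (hf i hi).1.c1
  have cfi : ∀ i, i ≤ n → ∀ l, ContinuousOn (fun x => f' i x l) (closure Ω) := fun i hi l =>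
    (EuclideanSpace.proj l : Eu p →L[ℝ] ℝ).continuous.comp_continuousOn (cf' i hi)
  have hfp : ∀ i, i ≤ n → ∀ x ∈ closure Ω, 0 < f i x := fun i hi x hx => ((hf i hi).2.2 x hx).1
  have hfM : ∀ i, i ≤ n → ∀ x ∈ closure Ω, f i x ≤ |M| := fun i hi x hx =>
    ((hf i hi).2.2 x hx).2.trans (le_abs_self M)
  have cP : ∀ k, k ≤ n → ContinuousOn (fun x => Pk (fun i => f i x) k) (closure Ω) := by
    intro k hk
    unfold Pk
    exact continuousOn_finsetSum _ fun i hi => cf i (hrg hk hi)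
  have cP' : ∀ k, k ≤ n → ∀ l, ContinuousOn (fun x => Pk (fun i => f' i x l) k)
      (closure Ω) := by
    intro k hk l
    unfold Pk
    exact continuousOn_finsetSum _ fun i hi => cfi i (hrg hk hi) l
  have cR' : ∀ k, k ≤ n → ∀ l, ContinuousOn
      (fun x => ∑ i ∈ Finset.range (k + 1), ρ i * f' i x l) (closure Ω) := by
    intro k hk l
    exact continuousOn_finsetSum _ fun i hi => continuousOn_const.mul (cfi i (hrg hk hi) l)
  have pP : ∀ k, k ≤ n → ∀ x ∈ closure Ω, 0 < Pk (fun i => f i x) k := by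
    intro k hk x hx
    unfold Pk
    exact Finset.sum_pos (fun i hi => hfp i (hrg hk hi) x hx) ⟨0, by simp⟩
  have cU := cP n le_rfl
  have pU : ∀ x ∈ closure Ω, 0 < Pk (fun i => f i x) n := pP n le_rfl
  have cS : ∀ k, k ≤ n → ContinuousOn (fun x => Sk n (fun i => f i x) k) (closure Ω) := by
    intro k hk
    unfold Sk
    exact (cP k hk).div cU fun x hx => (pU x hx).ne'
  have pS : ∀ k, k ≤ n → ∀ x ∈ closure Ω, Sk n (fun i => f i x) k ≠ 0 := by
    intro k hk x hx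
    unfold Sk
    exact (div_pos (pP k hk x hx) (pU x hx)).ne'
  have cZ : ∀ l k, k ≤ n → ContinuousOn
      (fun x => Zk n (fun i => f i x) (fun i => f' i x l) k) (closure Ω) := by
    intro l k hk
    unfold Zk
    exact (cP' k hk l).div cU fun x hx => (pU x hx).ne'
  have cZZ : ∀ l k, k ≤ n → ContinuousOn
      (fun x => ZZk n ρ (fun i => f i x) (fun i => f' i x l) k) (closure Ω) := by
    intro l k hk
    unfold ZZk
    exact (cR' k hk l).div (continuousOn_const.mul cU) fun x hx =>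
      (mul_pos hρ0 (pU x hx)).ne'
  set Nx : Eu p → ℝ := fun x => NfN n (rr n ρ) ρ (fun i => f i x) (fun i => f' i x)
      ((θ x)⁻¹ • θ' x) with hNx
  have cN : ContinuousOn Nx (closure Ω) := by
    rw [hNx]
    unfold NfN
    exact continuousOn_finsetSum _ fun l _ => H65.cont_N cS pS (cZ l) (cZZ l) (cζi l)
  have hsta : ∀ x ∈ closure Ω, ∀ l : Fin p, Sta n (rr n ρ) (Sk n (fun i => f i x))
      (Zk n (fun i => f i x) (fun i => f' i x l))
      (ZZk n ρ (fun i => f i x) (fun i => f' i x l)) := fun x hx l =>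
    hSta n ρ (fun i _ => f i x) (fun i _ => f' i x l) 0 fun i hi => ⟨hρ i hi, hfp i hi x hx⟩
  have hs := fun x hx l => hsml _ _ _ (((θ x)⁻¹ • θ' x) l) (hsta x hx l)
  have hN0 : ∀ x ∈ closure Ω, 0 ≤ Nx x := by
    intro x hx
    rw [hNx]
    exact Finset.sum_nonneg fun l _ => (hs x hx l).2.2.2
  -- the two integrals
  have csq : ContinuousOn (fun x => (Pk (fun i => f i x) n - θ x) ^ 2) (closure Ω) :=
    (cU.sub cθ).pow 2
  have cD : ContinuousOn (fun x => DxN n ρ θ θ' f f' x) (closure Ω) := by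
    unfold DxN
    exact (continuousOn_const.mul csq).add (continuousOn_const.mul (cθ.mul cN))
  have hA : ∫ x in Ω, (Pk (fun i => f i x) n - θ x) ^ 2 < δ₁ := by
    have h1 : ∫ x in Ω, 1 / 2 * (Pk (fun i => f i x) n - θ x) ^ 2 ≤
        ∫ x in Ω, DxN n ρ θ θ' f f' x := by
      refine setIntegral_mono_on (hΩ.integrableOn (continuousOn_const.mul csq))
        (hΩ.integrableOn cD) hΩ.measurableSet ?_
      intro x hxΩ
      have hx : x ∈ closure Ω := subset_closure hxΩ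
      unfold DxN
      have h2 : 0 ≤ ρ 0 / 16 * (θ x * Nx x) :=
        mul_nonneg (by positivity) (mul_nonneg (hθ.pos x hx).le (hN0 x hx))
      exact le_add_of_nonneg_right h2
    rw [integral_const_mul] at h1
    linarith
  have hN : ρ 0 * a / 16 * ∫ x in Ω, Nx x ≤ ∫ x in Ω, DxN n ρ θ θ' f f' x := by
    rw [← integral_const_mul]
    refine setIntegral_mono_on (hΩ.integrableOn (continuousOn_const.mul cN))
      (hΩ.integrableOn cD) hΩ.measurableSet ?_
    intro x hxΩ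
    have hx : x ∈ closure Ω := subset_closure hxΩ
    have h2 : ρ 0 / 16 * (a * Nx x) ≤ ρ 0 / 16 * (θ x * Nx x) :=
      mul_le_mul_of_nonneg_left (mul_le_mul_of_nonneg_right (hθa x hx) (hN0 x hx))
        (by positivity)
    have h3 : 0 ≤ 1 / 2 * (Pk (fun i => f i x) n - θ x) ^ 2 := by positivity
    change ρ 0 * a / 16 * Nx x ≤ 1 / 2 * (Pk (fun i => f i x) n - θ x) ^ 2 +
      ρ 0 / 16 * (θ x * Nx x)
    linarith
  have hN1 : ∫ x in Ω, Nx x < δ₂ / 2 := by
    have h1 : ρ 0 * a / 16 * ∫ x in Ω, Nx x < ρ 0 * a / 16 * (δ₂ / 2) := hN.trans_lt hG2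
    exact lt_of_mul_lt_mul_left h1 (by positivity)
  have hN2 : ∫ x in Ω, Nx x < η ^ 2 * I0 / (2 * C) := by
    have h1 : ρ 0 * a / 16 * ∫ x in Ω, Nx x < ρ 0 * a / 16 * (η ^ 2 * I0 / (2 * C)) :=
      hN.trans_lt hG3
    exact lt_of_mul_lt_mul_left h1 (by positivity)
  -- `U` is close to `θ`
  have hUlip : LipOn Ω KU (fun x => Pk (fun i => f i x) n) :=
    clo_lip_sum fun i hi => clo_lip_abs (hf i hi).2.1
  have hUM : ∀ x ∈ closure Ω, Pk (fun i => f i x) n ≤ (n + 1) * |M| := by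
    intro x hx
    unfold Pk
    refine (Finset.sum_le_sum fun i hi => hfM i (hrg le_rfl hi) x hx).trans ?_
    rw [Finset.sum_const, Finset.card_range, nsmul_eq_mul]
    push_cast
    exact le_rfl
  have hUθ : ∀ x ∈ closure Ω, |Pk (fun i => f i x) n - θ x| < κ := by
    intro x hx
    have h1 : LipOn Ω (2 * B * (KU + Kθ)) (fun x => (Pk (fun i => f i x) n - θ x) ^ 2) := by
      intro x hx y hy
      have h2 : ∀ y ∈ closure Ω, |Pk (fun i => f i y) n - θ y| ≤ B := by
        intro y hy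
        have h3 := hUM y hy
        have h4 := pU y hy
        have h5 := hθb' y hy
        have h6 := hθ.pos y hy
        rw [abs_le]
        constructor
        · have : 0 ≤ (n + 1) * |M| := by positivity
          linarith
        · linarith
      have h3 := hUlip x hx y hy
      have h4 := hθK x hx y hy
      have h5 : (Pk (fun i => f i x) n - θ x) ^ 2 - (Pk (fun i => f i y) n - θ y) ^ 2 =
          ((Pk (fun i => f i x) n - θ x) + (Pk (fun i => f i y) n - θ y)) *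
            ((Pk (fun i => f i x) n - Pk (fun i => f i y) n) - (θ x - θ y)) := by ring
      rw [h5, abs_mul]
      have h6 : |(Pk (fun i => f i x) n - θ x) + (Pk (fun i => f i y) n - θ y)| ≤ 2 * B :=
        (abs_add_le _ _).trans (by linarith [h2 x hx, h2 y hy])
      have h7 : |(Pk (fun i => f i x) n - Pk (fun i => f i y) n) - (θ x - θ y)| ≤
          (KU + Kθ) * ‖x - y‖ := (abs_sub _ _).trans (by
            have h8 : |Pk (fun i => f i x) n - Pk (fun i => f i y) n| ≤ KU * ‖x - y‖ := h3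
            linarith)
      calc _ ≤ (2 * B) * ((KU + Kθ) * ‖x - y‖) :=
            mul_le_mul h6 h7 (abs_nonneg _) (by positivity)
        _ = 2 * B * (KU + Kθ) * ‖x - y‖ := by ring
    have h2 := hsup _ h1 (by
      have h3 : ∀ x, |(Pk (fun i => f i x) n - θ x) ^ 2| = (Pk (fun i => f i x) n - θ x) ^ 2 :=
        fun x => abs_of_nonneg (sq_nonneg _)
      simp only [h3]
      exact hA) x hx
    rw [abs_of_nonneg (sq_nonneg _)] at h2
    exact abs_lt_of_sq_lt_sq h2 hκ0.le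
  have hUa : ∀ x ∈ closure Ω, a / 2 ≤ Pk (fun i => f i x) n := by
    intro x hx
    have h1 := (abs_lt.mp (hUθ x hx)).1
    linarith [hθa x hx]
  have hUb : ∀ x ∈ closure Ω, Pk (fun i => f i x) n ≤ 2 * b := by
    intro x hx
    have h1 := (abs_lt.mp (hUθ x hx)).2
    linarith [hθb' x hx]
  -- `S_0`
  have hP0 : ∀ x, Pk (fun i => f i x) 0 = f 0 x := fun x => by simp [Pk]
  have hf0U : ∀ x ∈ closure Ω, f 0 x ≤ Pk (fun i => f i x) n := by
    intro x hx
    unfold Pk
    exact Finset.single_le_sum (f := fun i => f i x)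
      (fun i hi => (hfp i (hrg le_rfl hi) x hx).le) (Finset.mem_range.mpr (Nat.succ_pos n))
  have hUC1 : C1 Ω (fun x => Pk (fun i => f i x) n) (fun x => Pg (fun i => f' i x) n) :=
    C1.sum _ fun i hi => (hf i (hrg le_rfl hi)).1
  set s0 : Eu p → ℝ := fun x => f 0 x * (Pk (fun i => f i x) n)⁻¹ with hs0
  set G0 : Eu p → Eu p := fun x => f 0 x • (-(Pk (fun i => f i x) n ^ 2)⁻¹) •
    Pg (fun i => f' i x) n + (Pk (fun i => f i x) n)⁻¹ • f' 0 x with hG0
  have hsC1 : C1 Ω s0 G0 := clo_C1_div (hf 0 n.zero_le).1 hUC1 fun x hx => (pU x hx).ne'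
  have hs1 : ∀ x ∈ closure Ω, 0 < s0 x ∧ s0 x ≤ 1 := by
    intro x hx
    refine ⟨mul_pos (hfp 0 n.zero_le x hx) (inv_pos.mpr (pU x hx)), ?_⟩
    rw [hs0]
    change f 0 x * (Pk (fun i => f i x) n)⁻¹ ≤ 1
    rw [← div_eq_mul_inv, div_le_one (pU x hx)]
    exact hf0U x hx
  have hsS : ∀ x, Sk n (fun i => f i x) 0 = s0 x := by
    intro x
    unfold Sk
    rw [hP0, div_eq_mul_inv]
  have hslip : LipOn Ω (2 / a * (|K| + KU)) s0 := by
    intro x hx y hy
    have h1 : |f 0 x - f 0 y| ≤ |K| * ‖x - y‖ := clo_lip_abs (hf 0 n.zero_le).2.1 x hx y hy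
    have h2 : |Pk (fun i => f i x) n - Pk (fun i => f i y) n| ≤ KU * ‖x - y‖ := hUlip x hx y hy
    have hUx := pU x hx
    have hUy := pU y hy
    have h3 : s0 x - s0 y = (Pk (fun i => f i x) n)⁻¹ *
        ((f 0 x - f 0 y) - s0 y * (Pk (fun i => f i x) n - Pk (fun i => f i y) n)) := by
      simp only [hs0]
      field_simp
      ring
    rw [h3, abs_mul, abs_of_pos (inv_pos.mpr hUx)]
    have h4 : (Pk (fun i => f i x) n)⁻¹ ≤ 2 / a := by
      rw [inv_le_comm₀ hUx (by positivity), inv_div]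
      exact hUa x hx
    have h5 : |(f 0 x - f 0 y) - s0 y * (Pk (fun i => f i x) n - Pk (fun i => f i y) n)| ≤
        (|K| + KU) * ‖x - y‖ := by
      refine (abs_sub _ _).trans ?_
      rw [abs_mul, abs_of_pos (hs1 y hy).1]
      have h6 : s0 y * |Pk (fun i => f i x) n - Pk (fun i => f i y) n| ≤
          1 * (KU * ‖x - y‖) :=
        mul_le_mul (hs1 y hy).2 h2 (abs_nonneg _) zero_le_one
      linarith
    calc _ ≤ 2 / a * ((|K| + KU) * ‖x - y‖) :=
          mul_le_mul h4 h5 (abs_nonneg _) (by positivity)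
      _ = 2 / a * (|K| + KU) * ‖x - y‖ := by ring
  have hGN : ∀ x ∈ closure Ω, ‖G0 x‖ ^ 2 ≤ 2 * Nx x := by
    intro x hx
    rw [EuclideanSpace.real_norm_sq_eq, hNx]
    unfold NfN
    rw [Finset.mul_sum]
    refine Finset.sum_le_sum fun l _ => ?_
    refine le_trans ?_ (hs x hx l).2.1
    have hUx := (pU x hx).ne'
    have hf0 := (hfp 0 n.zero_le x hx).ne'
    have h1 : G0 x l = s0 x * (bs (Sk n fun i => f i x) (Zk n (fun i => f i x)
        fun i => f' i x l) 0 - Zk n (fun i => f i x) (fun i => f' i x l) n) := by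
      have h2 : (Pg (fun i => f' i x) n) l = Pk (fun i => f' i x l) n := by
        unfold Pg Pk
        simp
      have h3 : G0 x l = f 0 x * (-(Pk (fun i => f i x) n ^ 2)⁻¹ *
          (Pg (fun i => f' i x) n) l) + (Pk (fun i => f i x) n)⁻¹ * f' 0 x l := by
        simp only [hG0, PiLp.add_apply, PiLp.smul_apply, smul_eq_mul]
      rw [h3, h2]
      have h4 : Pk (fun i => f' i x l) 0 = f' 0 x l := by simp [Pk]
      simp only [hs0]
      unfold bs Zk Sk
      rw [hP0, h4]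
      field_simp
      ring
    rw [h1, mul_pow]
    obtain ⟨h5, h6⟩ := hs1 x hx
    have h7 : s0 x ^ 2 ≤ 1 := pow_le_one₀ h5.le h6
    exact mul_le_of_le_one_left (sq_nonneg _) h7
  have hosc2 : ∀ x ∈ closure Ω, ∀ y ∈ closure Ω, |s0 x - s0 y| < η := by
    refine hosc s0 G0 hsC1 hslip ?_
    have h1 : ∫ x in Ω, ‖G0 x‖ ^ 2 ≤ ∫ x in Ω, 2 * Nx x :=
      setIntegral_mono_on (hΩ.integrableOn (hsC1.c1.norm.pow 2))
        (hΩ.integrableOn (continuousOn_const.mul cN)) hΩ.measurableSet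
        fun x hx => hGN x (subset_closure hx)
    rw [integral_const_mul] at h1
    linarith
  -- `1 - S_0` is small somewhere
  have hex : ∃ x1 ∈ closure Ω, 1 - s0 x1 ≤ η := by
    by_contra hcon
    push Not at hcon
    have h1 : ∫ x in Ω, η ^ 2 * ‖(θ x)⁻¹ • θ' x‖ ^ 2 ≤ ∫ x in Ω, C * Nx x := by
      refine setIntegral_mono_on (hΩ.integrableOn (continuousOn_const.mul (cζ.norm.pow 2)))
        (hΩ.integrableOn (continuousOn_const.mul cN)) hΩ.measurableSet ?_
      intro x hxΩ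
      have hx : x ∈ closure Ω := subset_closure hxΩ
      have h3 := hcon x hx
      have h4 : η ^ 2 ≤ (1 - s0 x) ^ 2 := pow_le_pow_left₀ hη0.le h3.le 2
      refine (mul_le_mul_of_nonneg_right h4 (sq_nonneg _)).trans ?_
      rw [EuclideanSpace.real_norm_sq_eq, hNx]
      unfold NfN
      rw [Finset.mul_sum, Finset.mul_sum]
      refine Finset.sum_le_sum fun l _ => ?_
      have h2 := (hs x hx l).1
      rw [hsS, mul_pow] at h2
      exact h2
    rw [integral_const_mul, integral_const_mul, ← hI0d] at h1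
    have h2 : C * ∫ x in Ω, Nx x < C * (η ^ 2 * I0 / (2 * C)) := mul_lt_mul_of_pos_left hN2 hC
    have h4 : C * (η ^ 2 * I0 / (2 * C)) = η ^ 2 * I0 / 2 := by field_simp
    have h5 : 0 < η ^ 2 * I0 := by positivity
    linarith
  obtain ⟨x1, hx1, hx1'⟩ := hex
  have hS2 : ∀ x ∈ closure Ω, 1 - s0 x < 2 * η := by
    intro x hx
    have := (abs_lt.mp (hosc2 x hx x1 hx1)).1
    linarith
  -- conclusion
  intro x hx
  have hU1 := abs_lt.mp (hUθ x hx)
  have hU2 := hUb x hx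
  have hUx := pU x hx
  have hdiff : Pk (fun i => f i x) n - f 0 x ≤ ε / 2 := by
    have h1 : Pk (fun i => f i x) n - f 0 x = (1 - s0 x) * Pk (fun i => f i x) n := by
      simp only [hs0]
      field_simp
    rw [h1, ← hη1]
    calc (1 - s0 x) * Pk (fun i => f i x) n ≤ (2 * η) * (2 * b) :=
          mul_le_mul (hS2 x hx).le hU2 hUx.le (by positivity)
      _ = 4 * b * η := by ring
  have hdiff0 := hf0U x hx
  constructor
  · rw [abs_lt]
    constructor <;> linarith [hU1.1, hU1.2]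
  · intro i hi hin
    have h1 : f i x ≤ Pk (fun i => f i x) n - f 0 x := by
      have h2 : f 0 x + f i x ≤ Pk (fun i => f i x) n := by
        unfold Pk
        have h3 : ∑ j ∈ ({0, i} : Finset ℕ), f j x ≤ ∑ j ∈ Finset.range (n + 1), f j x := by
          refine Finset.sum_le_sum_of_subset_of_nonneg ?_ fun j hj _ =>
            (hfp j (hrg le_rfl hj) x hx).le
          intro j hj
          rw [Finset.mem_insert, Finset.mem_singleton] at hj
          rw [Finset.mem_range]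
          rcases hj with h | h <;> omega
        rwa [Finset.sum_pair (by omega)] at h3
      linarith
    linarith

end Pool.Agent.Lib.MP_4fbe7c_an.ND.H47
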